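import Mathlib
import Pool.Agent.H24MU.St

/-!
# Permutation modules: definitions
-/

set_option autoImplicit false

namespace Pool.Agent.H24GH

open Pool.Agent.H24MU.St

/-- `V ≠ 1`, written multiplicatively, with the action `b` is a quotient of the permutation module
`𝔽_p[Γ/H]`: it is an `𝔽_p[Γ]`-module generated by a nontrivial vector which is fixed by `H`. -/
def IsQuotient (p : ℕ) {Γ V : Type} [Group Γ] [CommGroup V] (H : Subgroup Γ)
    (b : Γ →* MulAut V) : Prop :=
  (∀ v : V, v ^ p = 1) ∧ ∃ v : V, v ≠ 1 ∧ (∀ h ∈ H, b h v = v) ∧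
    ∀ U : Subgroup V, (∀ g, ∀ u ∈ U, b g u ∈ U) → v ∈ U → U = ⊤

/-- Every nontrivial (finite) quotient of `𝔽_p[Γ/H]` has for some `i` a nontrivial vector fixed by
`D i`. -/
def Dominated (p : ℕ) {Γ ι : Type} [Group Γ] (H : Subgroup Γ) (D : ι → Subgroup Γ) : Prop :=
  ∀ (V : Type) [CommGroup V] [Finite V] (b : Γ →* MulAut V), IsQuotient p H b →
    ∃ i, HasFixed b (D i)

end Pool.Agent.H24GH
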