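import Mathlib
import Pool.Agent.H24GH.Def
import Pool.Agent.H24MU.Alg

/-!
# A finiteness criterion for the fixed vectors of a subgroup
-/

set_option autoImplicit false

namespace Pool.Agent.H24GH

open Pool.Agent.H24MU Pool.Agent.H24MU.St

/-- A module with a nontrivial vector fixed by `H` has a nontrivial vector fixed by some `D i`. -/
theorem dom_all {p : ℕ} {Γ ι : Type} [Group Γ] {H : Subgroup Γ} {D : ι → Subgroup Γ}
    (hdom : Dominated p H D) (V : Type) [CommGroup V] [Finite V] (b : Γ →* MulAut V)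
    (hV : ∀ v : V, v ^ p = 1) (v₁ : V) (hv₁ : v₁ ≠ 1) (hH : ∀ h ∈ H, b h v₁ = v₁) :
    ∃ i, ∃ v : V, v ≠ 1 ∧ ∀ d ∈ D i, b d v = v := by
  let U : Subgroup V := sInf {U | (∀ g, ∀ u ∈ U, b g u ∈ U) ∧ v₁ ∈ U}
  have hUst : ∀ g, ∀ u ∈ U, b g u ∈ U := by
    intro g u hu
    rw [Subgroup.mem_sInf] at hu ⊢
    exact fun X hX => hX.1 g u (hu X hX)
  have hU1 : v₁ ∈ U := Subgroup.mem_sInf.2 fun X hX => hX.2
  let bU : Γ →* MulAut U :=
    { toFun := fun g =>
        { toFun := fun u => ⟨b g u, hUst g u u.2⟩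
          invFun := fun u => ⟨b g⁻¹ u, hUst g⁻¹ u u.2⟩
          left_inv := fun u => Subtype.ext (by
            change b g⁻¹ (b g u) = u
            rw [← MulAut.mul_apply, ← map_mul, inv_mul_cancel, map_one, MulAut.one_apply])
          right_inv := fun u => Subtype.ext (by
            change b g (b g⁻¹ u) = u
            rw [← MulAut.mul_apply, ← map_mul, mul_inv_cancel, map_one, MulAut.one_apply])
          map_mul' := fun u v => Subtype.ext (map_mul (b g) (u : V) (v : V)) }
      map_one' := by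
        ext u
        change b 1 u = u
        rw [map_one, MulAut.one_apply]
      map_mul' := fun g h => by
        ext u
        change b (g * h) u = b g (b h u)
        rw [map_mul, MulAut.mul_apply] }
  obtain ⟨i, v, hv, hf⟩ := hdom U bU ⟨fun v => Subtype.ext (hV v), ⟨v₁, hU1⟩,
    fun h => hv₁ (congrArg Subtype.val h), fun h hh => Subtype.ext (hH h hh), fun X hX hvX => by
      rw [eq_top_iff]
      intro u _
      have h1 : U ≤ X.map U.subtype := by
        refine sInf_le ⟨?_, ⟨⟨v₁, hU1⟩, hvX, rfl⟩⟩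
        rintro g _ ⟨w, hw, rfl⟩
        exact ⟨bU g w, hX g w hw, rfl⟩
      obtain ⟨w, hw, h2⟩ := h1 u.2
      have h3 : w = u := Subtype.ext h2
      rw [← h3]
      exact hw⟩
  exact ⟨i, v, fun h => hv (Subtype.ext h), fun d hd => congrArg Subtype.val (hf d hd)⟩

theorem core {p : ℕ} [Fact p.Prime] {Γ ι Z M : Type} [Group Γ] [Fintype Γ] [Fintype ι] [Group Z]
    [AddCommGroup M] [Module (ZMod p) M] (π : Z →* Γ) (r : Z →* Module.End (ZMod p) M)
    (hr : ∀ h, π h = 1 → r h = 1) (H : Subgroup Γ) (D : ι → Subgroup Γ)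
    (hdom : Dominated p H D) (hfin : ∀ i (γ : Γ), Finite (Fx π r (D i) γ)) :
    Finite (Fx π r H 1) ∧
      Nat.card (Fx π r H 1) ≤ (∏ j : ι × Γ, Nat.card (Fx π r (D j.1) j.2)) ^ Nat.card Γ := by
  classical
  let J : ((j : ι × Γ) → Fx π r (D j.1) j.2) →ₗ[ZMod p] M :=
    { toFun := fun u => ∑ j, (u j : M)
      map_add' := fun u v => by
        rw [← Finset.sum_add_distrib]
        rfl
      map_smul' := fun c u => by
        rw [RingHom.id_apply, Finset.smul_sum]
        rfl }
  let T := LinearMap.range J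
  have hfin' : ∀ j : ι × Γ, Finite (Fx π r (D j.1) j.2) := fun j => hfin j.1 j.2
  have hT : Finite T := Finite.of_surjective _ J.surjective_rangeRestrict
  have hTcard : Nat.card T ≤ ∏ j : ι × Γ, Nat.card (Fx π r (D j.1) j.2) := by
    rw [← Nat.card_pi]
    exact Nat.card_le_card_of_surjective _ J.surjective_rangeRestrict
  have hFT : ∀ i γ, Fx π r (D i) γ ≤ T := by
    intro i γ x hx
    refine ⟨Pi.single (i, γ) ⟨x, hx⟩, ?_⟩
    change ∑ j, ((Pi.single (i, γ) (⟨x, hx⟩ : Fx π r (D i) γ) :
      (j : ι × Γ) → Fx π r (D j.1) j.2) j : M) = x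
    rw [Finset.sum_eq_single (i, γ)]
    · rw [Pi.single_eq_same]
    · intro j _ hj
      rw [Pi.single_eq_of_ne hj]
      rfl
    · intro hj
      exact absurd (Finset.mem_univ _) hj
  obtain ⟨f, hf⟩ := T.subtype.exists_leftInverse_of_injective T.ker_subtype
  have hf1 : ∀ t : T, f (t : M) = t := fun t => LinearMap.congr_fun hf t
  let s : Γ → Z := fun γ => if h : ∃ z, π z = γ then Classical.choose h else 1
  have hs : ∀ h, π (s (π h)) = π h := by
    intro h
    have h1 : ∃ z, π z = π h := ⟨h, rfl⟩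
    change π (if h : ∃ z, π z = π h then Classical.choose h else 1) = π h
    rw [dif_pos h1]
    exact Classical.choose_spec h1
  have hrr : ∀ h h', π h = π h' → r h = r h' := by
    intro h h' hh
    have h1 : r (h * h'⁻¹) = 1 := hr _ (by rw [map_mul, map_inv, hh, mul_inv_cancel])
    calc r h = r (h * h'⁻¹ * h') := by rw [inv_mul_cancel_right]
      _ = r h' := by rw [map_mul, h1, one_mul]
  let Φ : Fx π r H 1 → (Γ → T) := fun x γ => f (r (s γ) (x : M))
  suffices hΦ : Function.Injective Φ by
    refine ⟨Finite.of_injective Φ hΦ, ?_⟩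
    refine (Nat.card_le_card_of_injective Φ hΦ).trans ?_
    rw [Nat.card_fun]
    exact Nat.pow_le_pow_left hTcard _
  by_contra hΦ
  rw [Function.Injective] at hΦ
  push Not at hΦ
  obtain ⟨x, y, hxy, hne⟩ := hΦ
  let z : M := x - y
  have hz : z ≠ 0 := fun h => hne (Subtype.ext (sub_eq_zero.1 h))
  have hzH : ∀ h : Z, π h ∈ H → r h z = z := by
    intro h hh
    have h1 : (1 : Γ)⁻¹ * π h * 1 ∈ H := by rwa [inv_one, one_mul, mul_one]
    change r h ((x : M) - y) = (x : M) - y
    rw [map_sub, x.2 h h1, y.2 h h1]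
  have hz0 : ∀ h, f (r h z) = 0 := by
    intro h
    rw [hrr h _ (hs h).symm]
    change f (r (s (π h)) ((x : M) - y)) = 0
    rw [map_sub, map_sub, sub_eq_zero]
    exact congrFun hxy (π h)
  let W := Submodule.span (ZMod p) (Set.range fun h => r h z)
  have hWfin : (Set.range fun h => r h z).Finite := by
    refine (Set.finite_range fun γ => r (s γ) z).subset ?_
    rintro _ ⟨h, rfl⟩
    exact ⟨π h, by
      change r (s (π h)) z = r h z
      rw [hrr h _ (hs h).symm]⟩
  have hWm : Module.Finite (ZMod p) W := Module.Finite.span_of_finite (ZMod p) hWfin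
  have hW : Finite W := Module.finite_of_finite (ZMod p)
  have hWf : ∀ w ∈ W, f w = 0 := by
    intro w hw
    have h1 : W ≤ LinearMap.ker f := by
      refine Submodule.span_le.2 ?_
      rintro _ ⟨h, rfl⟩
      exact hz0 h
    exact h1 hw
  have hWst : ∀ h, ∀ w ∈ W, r h w ∈ W := by
    intro h w hw
    have h1 : W ≤ W.comap (r h) := by
      refine Submodule.span_le.2 ?_
      rintro _ ⟨h', rfl⟩
      refine Submodule.subset_span ⟨h * h', ?_⟩
      change r (h * h') z = r h (r h' z)
      rw [map_mul]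
      rfl
    exact h1 hw
  have hz1 : z ∈ W := Submodule.subset_span ⟨1, by
    change r 1 z = z
    rw [map_one]
    rfl⟩
  let V₀ : AddSubgroup (Γ → M) :=
    { carrier := {v | (∀ γ, v γ ∈ W) ∧ ∀ h γ, v (π h * γ) = r h (v γ)}
      add_mem' := by
        rintro u v ⟨h1, h2⟩ ⟨h3, h4⟩
        refine ⟨fun γ => W.add_mem (h1 γ) (h3 γ), fun h γ => ?_⟩
        rw [Pi.add_apply, Pi.add_apply, h2, h4, map_add]
      zero_mem' := ⟨fun γ => W.zero_mem, fun h γ => by rw [Pi.zero_apply, Pi.zero_apply, map_zero]⟩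
      neg_mem' := by
        rintro v ⟨h3, h4⟩
        refine ⟨fun γ => W.neg_mem (h3 γ), fun h γ => ?_⟩
        rw [Pi.neg_apply, Pi.neg_apply, h4, map_neg] }
  have hV₀ : Finite V₀ := by
    refine Finite.of_injective (fun (v : V₀) (γ : Γ) => (⟨v.1 γ, v.2.1 γ⟩ : W)) ?_
    intro u v huv
    apply Subtype.ext
    funext γ
    exact congrArg Subtype.val (congrFun huv γ)
  let b : Γ →* MulAut (Multiplicative V₀) :=
    { toFun := fun g =>
        { toFun := fun v => Multiplicative.ofAdd ⟨fun γ => (Multiplicative.toAdd v).1 (γ * g),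
            fun γ => (Multiplicative.toAdd v).2.1 _, fun h γ => by
              change (Multiplicative.toAdd v).1 (π h * γ * g) = r h ((Multiplicative.toAdd v).1 (γ * g))
              rw [mul_assoc]
              exact (Multiplicative.toAdd v).2.2 h _⟩
          invFun := fun v => Multiplicative.ofAdd ⟨fun γ => (Multiplicative.toAdd v).1 (γ * g⁻¹),
            fun γ => (Multiplicative.toAdd v).2.1 _, fun h γ => by
              change (Multiplicative.toAdd v).1 (π h * γ * g⁻¹) =
                r h ((Multiplicative.toAdd v).1 (γ * g⁻¹))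
              rw [mul_assoc]
              exact (Multiplicative.toAdd v).2.2 h _⟩
          left_inv := fun v => by
            apply Multiplicative.toAdd.injective
            apply Subtype.ext
            funext γ
            change (Multiplicative.toAdd v).1 (γ * g⁻¹ * g) = (Multiplicative.toAdd v).1 γ
            rw [inv_mul_cancel_right]
          right_inv := fun v => by
            apply Multiplicative.toAdd.injective
            apply Subtype.ext
            funext γ
            change (Multiplicative.toAdd v).1 (γ * g * g⁻¹) = (Multiplicative.toAdd v).1 γ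
            rw [mul_inv_cancel_right]
          map_mul' := fun u v => rfl }
      map_one' := by
        refine MulEquiv.ext fun v => ?_
        apply Multiplicative.toAdd.injective
        apply Subtype.ext
        funext γ
        change (Multiplicative.toAdd v).1 (γ * 1) = (Multiplicative.toAdd v).1 γ
        rw [mul_one]
      map_mul' := fun g h => by
        refine MulEquiv.ext fun v => ?_
        apply Multiplicative.toAdd.injective
        apply Subtype.ext
        funext γ
        change (Multiplicative.toAdd v).1 (γ * (g * h)) = (Multiplicative.toAdd v).1 (γ * g * h)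
        rw [mul_assoc] }
  have hb : ∀ g (v : Multiplicative V₀) (γ : Γ),
      (Multiplicative.toAdd (b g v)).1 γ = (Multiplicative.toAdd v).1 (γ * g) := fun g v γ => rfl
  -- the vector fixed by `H`
  let v₀ : Γ → M := fun γ => if hh : ∃ a : Z, ∃ h ∈ H, π a * h = γ then
    r (Classical.choose hh) z else 0
  have hv₀1 : ∀ a : Z, ∀ h ∈ H, v₀ (π a * h) = r a z := by
    intro a h hh
    have hex : ∃ a' : Z, ∃ h' ∈ H, π a' * h' = π a * h := ⟨a, h, hh, rfl⟩
    have h1 : v₀ (π a * h) = r (Classical.choose hex) z := dif_pos hex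
    obtain ⟨h', hh', h2⟩ := Classical.choose_spec hex
    rw [h1]
    have h3 : π (a⁻¹ * Classical.choose hex) ∈ H := by
      rw [map_mul, map_inv]
      have h4 : (π a)⁻¹ * π (Classical.choose hex) = h * h'⁻¹ := by
        rw [eq_mul_inv_iff_mul_eq, mul_assoc, h2, inv_mul_cancel_left]
      rw [h4]
      exact H.mul_mem hh (H.inv_mem hh')
    have h4 := hzH _ h3
    have h5 : r a (r (a⁻¹ * Classical.choose hex) z) = r (Classical.choose hex) z := by
      rw [← Module.End.mul_apply, ← map_mul, mul_inv_cancel_left]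
    rw [← h5, h4]
  have hv₀0 : ∀ γ, (¬ ∃ a : Z, ∃ h ∈ H, π a * h = γ) → v₀ γ = 0 := fun γ hγ => dif_neg hγ
  have hv₀ : v₀ ∈ V₀ := by
    refine ⟨fun γ => ?_, fun c γ => ?_⟩
    · by_cases hγ : ∃ a : Z, ∃ h ∈ H, π a * h = γ
      · obtain ⟨a, h, hh, rfl⟩ := hγ
        rw [hv₀1 a h hh]
        exact hWst _ _ hz1
      · rw [hv₀0 γ hγ]
        exact W.zero_mem
    · by_cases hγ : ∃ a : Z, ∃ h ∈ H, π a * h = γ
      · obtain ⟨a, h, hh, rfl⟩ := hγ
        rw [hv₀1 a h hh, ← mul_assoc, ← map_mul, hv₀1 _ h hh, map_mul]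
        rfl
      · rw [hv₀0 γ hγ, map_zero]
        apply hv₀0
        rintro ⟨a, h, hh, h1⟩
        exact hγ ⟨c⁻¹ * a, h, hh, by rw [map_mul, map_inv, mul_assoc, h1, inv_mul_cancel_left]⟩
  obtain ⟨i, v, hv1, hvf⟩ := dom_all hdom (Multiplicative V₀) b (fun v => by
    apply Multiplicative.toAdd.injective
    apply Subtype.ext
    funext γ
    change (p • (Multiplicative.toAdd v).1) γ = 0
    rw [Pi.smul_apply, ← Nat.cast_smul_eq_nsmul (ZMod p), CharP.cast_eq_zero, zero_smul])
    (Multiplicative.ofAdd ⟨v₀, hv₀⟩) (fun h => by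
      have h1 : v₀ = 0 := congrArg (fun w => (Multiplicative.toAdd w).1) h
      have h2 := congrFun h1 1
      have h3 := hv₀1 1 1 H.one_mem
      rw [map_one, mul_one, map_one, h2] at h3
      exact hz h3.symm) (fun h hh => by
      apply Multiplicative.toAdd.injective
      apply Subtype.ext
      funext γ
      change v₀ (γ * h) = v₀ γ
      by_cases hγ : ∃ a : Z, ∃ h ∈ H, π a * h = γ
      · obtain ⟨a, h', hh', rfl⟩ := hγ
        rw [hv₀1 a h' hh', mul_assoc, hv₀1 a _ (H.mul_mem hh' hh)]
      · rw [hv₀0 γ hγ]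
        apply hv₀0
        rintro ⟨a, h', hh', h1⟩
        exact hγ ⟨a, h' * h⁻¹, H.mul_mem hh' (H.inv_mem hh), by
          rw [← mul_assoc, h1, mul_inv_cancel_right]⟩)
  obtain ⟨γ₀, hγ₀⟩ : ∃ γ₀, (Multiplicative.toAdd v).1 γ₀ ≠ 0 := by
    by_contra hcon
    push Not at hcon
    apply hv1
    apply Multiplicative.toAdd.injective
    apply Subtype.ext
    funext γ
    exact hcon γ
  let w := (Multiplicative.toAdd v).1 γ₀
  have hw : w ∈ W := (Multiplicative.toAdd v).2.1 γ₀
  have hwE : w ∈ Fx π r (D i) γ₀ := by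
    intro h hh
    have h1 : r h w = (Multiplicative.toAdd v).1 (π h * γ₀) := ((Multiplicative.toAdd v).2.2 h γ₀).symm
    have h2 := hb (γ₀⁻¹ * π h * γ₀) v γ₀
    rw [hvf _ hh] at h2
    rw [h1]
    have h3 : γ₀ * (γ₀⁻¹ * π h * γ₀) = π h * γ₀ := by group
    rw [h3] at h2
    exact h2.symm
  have hwT : w ∈ T := hFT i γ₀ hwE
  have h1 := hf1 ⟨w, hwT⟩
  have h2 : f w = 0 := hWf w hw
  have h3 : f ((⟨w, hwT⟩ : T) : M) = 0 := h2
  rw [h3] at h1
  exact hγ₀ (congrArg Subtype.val h1).symm

end Pool.Agent.H24GH
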