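import Mathlib
import Pool.Agent.H24GH.Alg
import Pool.Agent.H24UR.Grp

/-!
# The main lemma for the subgroup over `H`
-/

set_option autoImplicit false

namespace Pool.Agent.H24GH

open Pool.Agent.H24MU Pool.Agent.H24UR

variable {A : Type} [Group A] {s : Sys A} (p : ℕ) {Γ : Type} [Group Γ]
  (f : Pool.Agent.H24UR.Frame s Γ)

open Pool.Agent.H24UR.Frame in
/-- **The main lemma.** -/
theorem finite_of_dom [Fact p.Prime] [Fintype Γ] {ι : Type} [Fintype ι] (H : Subgroup Γ)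
    (D : ι → Subgroup Γ) (hdom : Dominated p H D) {E : Type} [Finite E] (e : A → E)
    (he : f.Cls e) (hfin : ∀ i, Finite (s.H p (f.K (D i)))) :
    Finite (s.H p (f.K H)) ∧ Nat.card (s.H p (f.K H)) ≤
      p ^ Nat.card Γ * (∏ i, p ^ (Nat.card Γ ^ 2) * p ^ Nat.card E *
        Nat.card (s.H p (f.K (D i)))) ^ (Nat.card Γ ^ 2) := by
  classical
  let ρ : f.K ⊤ →* Γ := MonoidHom.mk' (fun z => f.pr z) (fun x y => by
    rw [Subgroup.coe_mul, f.pr_mul x.2.2.1 y.2.2.1])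
  let r : f.K ⊤ →* Module.End (ZMod p) (s.H p (f.K ⊥)) :=
    { toFun := fun z => (Pool.Agent.H24UR.Frame.cj p (z : A)).restrict fun φ hφ =>
        f.cj_mem p z.2.2.1 hφ
      map_one' := LinearMap.ext fun φ => Subtype.ext (Pool.Agent.H24UR.Frame.cj_one p φ.1)
      map_mul' := fun x y => LinearMap.ext fun φ =>
        Subtype.ext (Pool.Agent.H24UR.Frame.cj_mul p x.1 y.1 φ.1) }
  have hr : ∀ (z : f.K ⊤) (φ : s.H p (f.K ⊥)), ((r z φ : s.H p (f.K ⊥)) : A → ZMod p) =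
      Pool.Agent.H24UR.Frame.cj p (z : A) φ := fun z φ => rfl
  have hFx : ∀ i (γ : Γ), ∃ j : Fx ρ r (D i) γ → f.Inv p (D i), Function.Injective j := by
    intro i γ
    obtain ⟨τ, hτ⟩ := f.surj γ
    have hτ1 : f.pr τ.1 = γ := by rw [f.pr_of τ.2, hτ]
    refine ⟨fun φ => ⟨Pool.Agent.H24UR.Frame.cj p (τ : A)⁻¹ φ.1.1,
      f.cj_mem p (f.St.inv_mem τ.2) φ.1.2, fun g hg => ?_⟩, ?_⟩
    · have h1 : (τ : A) * g * (τ : A)⁻¹ ∈ f.K ⊤ :=
        ⟨f.normal g hg.1 τ, f.St.mul_mem (f.St.mul_mem τ.2 hg.2.1) (f.St.inv_mem τ.2),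
          Subgroup.mem_top _⟩
      have h2 := φ.2 ⟨_, h1⟩ (by
        change γ⁻¹ * f.pr ((τ : A) * g * (τ : A)⁻¹) * γ ∈ D i
        rw [f.pr_mul (f.St.mul_mem τ.2 hg.2.1) (f.St.inv_mem τ.2), f.pr_mul τ.2 hg.2.1,
          f.pr_inv τ.2, hτ1]
        have h3 : γ⁻¹ * (γ * f.pr g * γ⁻¹) * γ = f.pr g := by group
        rw [h3]
        exact hg.2.2)
      have h3 : Pool.Agent.H24UR.Frame.cj p ((τ : A) * g * (τ : A)⁻¹) φ.1.1 = φ.1.1 :=
        congrArg Subtype.val h2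
      change Pool.Agent.H24UR.Frame.cj p g (Pool.Agent.H24UR.Frame.cj p (τ : A)⁻¹ φ.1.1) =
        Pool.Agent.H24UR.Frame.cj p (τ : A)⁻¹ φ.1.1
      rw [← Pool.Agent.H24UR.Frame.cj_mul]
      conv_rhs => rw [← h3]
      rw [← Pool.Agent.H24UR.Frame.cj_mul]
      congr 1
      group
    · intro φ ψ h
      exact Subtype.ext (Subtype.ext (Pool.Agent.H24UR.Frame.cj_inj p _
        (congrArg Subtype.val h)))
  choose j hj using hFx
  have hI := fun i => f.inv_finite p e he (D i) (hfin i)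
  have hIf : ∀ i, Finite (f.Inv p (D i)) := fun i => (hI i).1
  obtain ⟨h1, h2⟩ := core ρ r (fun h hh => by
    refine LinearMap.ext fun φ => Subtype.ext ?_
    rw [hr]
    exact f.cj_triv p ⟨h.2.1, h.2.2.1, by rw [show f.pr h = 1 from hh]; exact Subgroup.one_mem _⟩
      φ.2) H D hdom fun i γ => Finite.of_injective (j i γ) (hj i γ)
  have h3 : (∏ x : ι × Γ, Nat.card (Fx ρ r (D x.1) x.2)) ≤
      (∏ i, p ^ (Nat.card Γ ^ 2) * p ^ Nat.card E * Nat.card (s.H p (f.K (D i)))) ^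
        Nat.card Γ := by
    rw [Fintype.prod_prod_type, ← Finset.prod_pow]
    refine Finset.prod_le_prod' fun i _ => ?_
    refine (Finset.prod_le_pow_card Finset.univ _
      (p ^ (Nat.card Γ ^ 2) * p ^ Nat.card E * Nat.card (s.H p (f.K (D i)))) fun γ _ =>
        ?_).trans ?_
    · exact (Nat.card_le_card_of_injective (j i γ) (hj i γ)).trans (hI i).2
    · rw [Finset.card_univ, Nat.card_eq_fintype_card]
  have h4 : Nat.card (Fx ρ r H 1) ≤ (∏ i, p ^ (Nat.card Γ ^ 2) * p ^ Nat.card E *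
      Nat.card (s.H p (f.K (D i)))) ^ (Nat.card Γ ^ 2) := by
    refine h2.trans ?_
    calc (∏ x : ι × Γ, Nat.card (Fx ρ r (D x.1) x.2)) ^ Nat.card Γ
        ≤ ((∏ i, p ^ (Nat.card Γ ^ 2) * p ^ Nat.card E * Nat.card (s.H p (f.K (D i)))) ^
            Nat.card Γ) ^ Nat.card Γ :=
          Nat.pow_le_pow_left h3 _
      _ = _ := by rw [← pow_mul, pow_two]
  -- representatives of the subgroup over `H`
  let t : Γ → A := fun γ => if h : ∃ σ ∈ f.K H, f.pr σ = γ then Classical.choose h else 1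
  have ht : ∀ σ ∈ f.K H, t (f.pr σ) ∈ f.K H ∧ f.pr (t (f.pr σ)) = f.pr σ := by
    intro σ hσ
    have hex : ∃ σ' ∈ f.K H, f.pr σ' = f.pr σ := ⟨σ, hσ, rfl⟩
    have h5 : t (f.pr σ) = Classical.choose hex := dif_pos hex
    rw [h5]
    exact Classical.choose_spec hex
  have hm : ∀ φ ∈ s.H p (f.K H), (fun σ => if σ ∈ f.K ⊥ then φ σ else 0) ∈ s.H p (f.K ⊥) := by
    rintro φ ⟨h1, h2, ⟨U, hU, h3⟩, h4⟩
    refine ⟨fun σ hσ => if_neg hσ, fun σ hσ τ hτ => ?_, ⟨U, hU, fun σ hσ hu => ?_⟩,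
      fun σ hσ hi => ?_⟩
    · change (if σ * τ ∈ f.K ⊥ then φ (σ * τ) else 0) = (if σ ∈ f.K ⊥ then φ σ else 0) +
        (if τ ∈ f.K ⊥ then φ τ else 0)
      rw [if_pos hσ, if_pos hτ, if_pos ((f.K ⊥).mul_mem hσ hτ)]
      exact h2 σ (f.bot_le H hσ) τ (f.bot_le H hτ)
    · change (if σ ∈ f.K ⊥ then φ σ else 0) = 0
      rw [if_pos hσ]
      exact h3 σ (f.bot_le H hσ) hu
    · change (if σ ∈ f.K ⊥ then φ σ else 0) = 0
      rw [if_pos hσ]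
      exact h4 σ (f.bot_le H hσ) hi
  have hmF : ∀ φ (hφ : φ ∈ s.H p (f.K H)),
      (⟨fun σ => if σ ∈ f.K ⊥ then φ σ else 0, hm φ hφ⟩ : s.H p (f.K ⊥)) ∈ Fx ρ r H 1 := by
    intro φ hφ h hh
    have hh' : f.pr h ∈ H := by
      have h5 : (1 : Γ)⁻¹ * f.pr h * 1 ∈ H := hh
      rwa [inv_one, one_mul, mul_one] at h5
    have hhK : (h : A) ∈ f.K H := ⟨h.2.1, h.2.2.1, hh'⟩
    apply Subtype.ext
    rw [hr]
    funext σ
    change (if (h : A)⁻¹ * σ * h ∈ f.K ⊥ then φ ((h : A)⁻¹ * σ * h) else 0) =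
      (if σ ∈ f.K ⊥ then φ σ else 0)
    by_cases hσ : σ ∈ f.K ⊥
    · rw [if_pos hσ, if_pos ((f.conj_bot h.2.2.1).2 hσ)]
      rw [hφ.2.1 _ ((f.K H).mul_mem ((f.K H).inv_mem hhK) (f.bot_le H hσ)) _ hhK,
        hφ.2.1 _ ((f.K H).inv_mem hhK) _ (f.bot_le H hσ), s.H_inv p hφ hhK]
      abel
    · rw [if_neg hσ, if_neg fun h5 => hσ ((f.conj_bot h.2.2.1).1 h5)]
  let k : s.H p (f.K H) → (Γ → ZMod p) × Fx ρ r H 1 := fun φ =>
    (fun γ => φ.1 (t γ), ⟨⟨fun σ => if σ ∈ f.K ⊥ then φ.1 σ else 0, hm φ.1 φ.2⟩, hmF φ.1 φ.2⟩)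
  have hk : Function.Injective k := by
    intro φ ψ h
    apply Subtype.ext
    funext σ
    by_cases hσ : σ ∈ f.K H
    · obtain ⟨k1, k2⟩ := ht σ hσ
      have h5 : σ * (t (f.pr σ))⁻¹ ∈ f.K ⊥ := by
        have h6 := (f.K H).mul_mem hσ ((f.K H).inv_mem k1)
        refine ⟨h6.1, h6.2.1, ?_⟩
        rw [Subgroup.mem_bot, f.pr_mul hσ.2.1 (f.St.inv_mem k1.2.1), f.pr_inv k1.2.1, k2,
          mul_inv_cancel]
      have h6 : σ = σ * (t (f.pr σ))⁻¹ * t (f.pr σ) := by group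
      have h7 : φ.1 (t (f.pr σ)) = ψ.1 (t (f.pr σ)) := congrFun (congrArg Prod.fst h) (f.pr σ)
      have h8 : φ.1 (σ * (t (f.pr σ))⁻¹) = ψ.1 (σ * (t (f.pr σ))⁻¹) := by
        have h9 := congrFun (congrArg (fun x : (Γ → ZMod p) × Fx ρ r H 1 =>
          ((x.2 : s.H p (f.K ⊥)) : A → ZMod p)) h) (σ * (t (f.pr σ))⁻¹)
        change (if σ * (t (f.pr σ))⁻¹ ∈ f.K ⊥ then φ.1 (σ * (t (f.pr σ))⁻¹) else 0) =
          (if σ * (t (f.pr σ))⁻¹ ∈ f.K ⊥ then ψ.1 (σ * (t (f.pr σ))⁻¹) else 0) at h9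
        rwa [if_pos h5, if_pos h5] at h9
      rw [h6, φ.2.2.1 _ (f.bot_le H h5) _ k1, ψ.2.2.1 _ (f.bot_le H h5) _ k1, h7, h8]
    · rw [φ.2.1 σ hσ, ψ.2.1 σ hσ]
  have : Finite (Fx ρ r H 1) := h1
  refine ⟨Finite.of_injective k hk, (Nat.card_le_card_of_injective k hk).trans ?_⟩
  rw [Nat.card_prod, Nat.card_fun, Nat.card_zmod]
  exact Nat.mul_le_mul_left _ h4

end Pool.Agent.H24GH
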