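import Mathlib
import Pool.Agent.H24GH.Def
import Pool.Agent.H24MU.St

/-!
# Permutation modules and the `μ`-invariant of totally real fields: definitions
-/

set_option autoImplicit false

namespace Pool.Agent.H24GH.S

open Pool.Agent.H24MU.St

/-- Some nontrivial quotient `V` of `𝔽_p[Aut F / H]` is such that `μ_p(F^D) ≠ 0` for all the subgroups `D`
of `Aut F`, of any order, which have a nontrivial fixed vector in `V`. -/
def HasQuotientWitness (p : ℕ) (F : Fds) (H : Subgroup (Aut F)) : Prop :=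
  ∃ (V : Type) (_ : CommGroup V) (_ : Finite V) (b : Aut F →* MulAut V), IsQuotient p H b ∧
    ∀ D : Subgroup (Aut F), HasFixed b D → ¬ MuZero p (fx F D)

/-- If the `h(F^{D i} Z)` are finite then `h(F^H Z)` is finite and
`h(F^H Z) ≤ p ^ g (∏ i, p ^ (g ^ 2 + 1) h(F^{D i} Z)) ^ (g ^ 2)`, where `g = |Aut F|`. -/
def RankInequalityFor (p : ℕ) (S : Finset ℕ) (F Z : Fds) (H : Subgroup (Aut F)) {ι : Type}
    [Fintype ι] (D : ι → Subgroup (Aut F)) : Prop :=
  (∀ i, (Homs p S (fx F (D i) ⊔ Z)).Finite) →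
    (Homs p S (fx F H ⊔ Z)).Finite ∧ h p S (fx F H ⊔ Z) ≤ p ^ Nat.card (Aut F) *
      (∏ i, p ^ (Nat.card (Aut F) ^ 2 + 1) * h p S (fx F (D i) ⊔ Z)) ^
        (Nat.card (Aut F) ^ 2)

/-- `C` is a set of totally real number fields which contains all the subfields of its elements. -/
def RealClosed (C : Set Fds) : Prop :=
  ∀ F ∈ C, IsReal F ∧ ∀ E : Fds, E ≤ F → E ∈ C

/-- The field `M` is *tight* for `C`: for every field `L` in `C` and every subgroup `H` of `Aut L` with
`M ≤ L^H` there is a nontrivial quotient of the permutation module `𝔽_p[Aut L / H]` in which the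
subgroups `D` of `Aut L` with `[L^D : ℚ] < [M : ℚ]` have no nontrivial fixed vectors. -/
def TightFor (p : ℕ) (C : Set Fds) (M : Fds) : Prop :=
  ∀ L ∈ C, ∀ H : Subgroup (Aut L), M ≤ fx L H →
    ∃ (V : Type) (_ : CommGroup V) (_ : Finite V) (b : Aut L →* MulAut V), IsQuotient p H b ∧
      ∀ D : Subgroup (Aut L), deg (fx L D) < deg M → ¬ HasFixed b D

/-- The restrictions on a tight field `M`: the order of `Aut M` is prime to `p`, and `Aut M` acts on some
finite elementary abelian `p`-group `V ≠ 1` in such a way that no `σ ≠ 1` has a nontrivial fixed vector;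
the `p`-subgroups `P` of `Aut L` satisfy `|P| [M : ℚ] ≤ [L : ℚ]` for all fields `L` in `C` which
contain `M`. -/
def Restrictions (p : ℕ) (C : Set Fds) (M : Fds) : Prop :=
  ¬ p ∣ Nat.card (Aut M) ∧
  (∃ (V : Type) (_ : CommGroup V) (_ : Finite V) (b : Aut M →* MulAut V),
    (∀ v : V, v ^ p = 1) ∧ (∃ v : V, v ≠ 1) ∧ ∀ σ, σ ≠ 1 → ∀ v, b σ v = v → v = 1) ∧
  ∀ L ∈ C, M ≤ L →
    ∀ P : Subgroup (Aut L), (∃ k, Nat.card P = p ^ k) → Nat.card P * deg M ≤ deg L

end Pool.Agent.H24GH.S
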