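import Mathlib
import Pool.Agent.H24GH.StS
import Pool.Agent.H24GH.Grp
import Pool.Agent.H24MU.Red
import Pool.Agent.H24UR.Main

/-!
# The main theorems: the `μ`-invariant of totally real fields
-/

set_option autoImplicit false

namespace Pool.Agent.H24GH.S

open IntermediateField Pool.Agent.H24MU.St Pool.Agent.H24MU

attribute [local instance] alg_QB

variable {p : ℕ}

/-- The frame. -/
noncomputable def fr (S : Finset ℕ) (F : IntermediateField ℚ QB)
    [FiniteDimensional ℚ F] (Z : IntermediateField ℚ QB) (hZ : Z.fixingSubgroup.Normal) :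
    Pool.Agent.H24UR.Frame (sys S) (F ≃ₐ[ℚ] F) where
  Z := Z.fixingSubgroup
  normal := fun σ hσ g => hZ.conj_mem σ hσ g
  St := Pool.Agent.H24MU.St F
  π := res F
  surj := by
    intro γ
    obtain ⟨g, hg⟩ := exists_ext F γ
    exact ⟨⟨g, γ, hg⟩, res_eq _ _ hg⟩
  opA := ⟨F.fixingSubgroup, ⟨F, inferInstance, le_rfl⟩, fun σ hσ => mem_of_fix hσ⟩

theorem fr_K (S : Finset ℕ) (F : IntermediateField ℚ QB)
    [FiniteDimensional ℚ F] (Z : IntermediateField ℚ QB) (hZ : Z.fixingSubgroup.Normal)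
    (D : Subgroup (F ≃ₐ[ℚ] F)) :
    (fr S F Z hZ).K D = (fx F D ⊔ Z).fixingSubgroup := by
  rw [IntermediateField.fixingSubgroup_sup]
  ext σ
  rw [Pool.Agent.H24UR.Frame.mem_K, Subgroup.mem_inf]
  change σ ∈ Z.fixingSubgroup ∧ σ ∈ Pool.Agent.H24MU.St F ∧ _ ↔ _
  constructor
  · rintro ⟨h1, h2, h3⟩
    refine ⟨(IntermediateField.mem_fixingSubgroup_iff _ _).2 ?_, h1⟩
    rintro _ ⟨y, hy, rfl⟩
    rw [(fr S F Z hZ).pr_of h2] at h3
    have h4 := res_spec ⟨σ, h2⟩ y
    change σ (y : QB) = (res F ⟨σ, h2⟩ y : QB) at h4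
    change σ (y : QB) = (y : QB)
    rw [h4]
    exact congrArg _ ((IntermediateField.mem_fixedField_iff _ _).1 hy _ h3)
  · rintro ⟨h1, h2⟩
    obtain ⟨h3, h4⟩ := fix_fx ((IntermediateField.mem_fixingSubgroup_iff _ _).1 h1)
    refine ⟨h2, h3, ?_⟩
    rw [(fr S F Z hZ).pr_of h3]
    exact h4

/-- The class function. -/
theorem fr_cls (S : Finset ℕ) (F : IntermediateField ℚ QB)
    [FiniteDimensional ℚ F] (Z : IntermediateField ℚ QB) (hZ : Z.fixingSubgroup.Normal)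
    (hS : UnramifiedOutside S F) : (fr S F Z hZ).Cls (fun _ => ()) := by
  intro σ hσ τ hτ hσ1 hτ1 hσ2
  exfalso
  apply hσ2
  obtain ⟨h5, h6⟩ := mem_of_fix ((IntermediateField.mem_fixingSubgroup_iff _ _).2 (hS σ hσ))
  refine ⟨hσ1.1, h5, ?_⟩
  rw [(fr S F Z hZ).pr_of h5]
  exact h6

/-- The inequality. -/
theorem bounded (hp : p.Prime) (F : IntermediateField ℚ QB) [FiniteDimensional ℚ F]
    (Z : IntermediateField ℚ QB) (hZ : Z.fixingSubgroup.Normal) {ι : Type} [Fintype ι]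
    (H : Subgroup (Aut F)) (D : ι → Subgroup (Aut F)) (hdom : Dominated p H D) (S : Finset ℕ)
    (hS : UnramifiedOutside S F) : RankInequalityFor p S F Z H D := by
  intro h
  have : Fact p.Prime := ⟨hp⟩
  have : Fintype (F ≃ₐ[ℚ] F) := Fintype.ofFinite _
  have hK : ∀ i, (fr S F Z hZ).K (D i) = (fx F (D i) ⊔ Z).fixingSubgroup := fun i =>
    fr_K S F Z hZ (D i)
  have hi : ∀ i, Finite ((sys S).H p ((fr S F Z hZ).K (D i))) ∧
      Nat.card ((sys S).H p ((fr S F Z hZ).K (D i))) =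
        Pool.Agent.H24MU.St.h p S (fx F (D i) ⊔ Z) := fun i => by
    have h1 : Pool.Agent.H24MU.St.h p S (fx F (D i) ⊔ Z) =
        Nat.card (Homs p S (fx F (D i) ⊔ Z)) := rfl
    rw [hK, h1, Homs_card]
    exact ⟨finite_H.1 (h i), rfl⟩
  obtain ⟨h1, h2⟩ := finite_of_dom p (fr S F Z hZ) H D hdom (fun _ => ()) (fr_cls S F Z hZ hS)
    (fun i => (hi i).1)
  have hH : (fr S F Z hZ).K H = (fx F H ⊔ Z).fixingSubgroup := fr_K S F Z hZ H
  have h3 : Pool.Agent.H24MU.St.h p S (fx F H ⊔ Z) = Nat.card (Homs p S (fx F H ⊔ Z)) := rfl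
  rw [finite_H, h3, Homs_card, ← hH]
  refine ⟨h1, h2.trans (le_of_eq ?_)⟩
  congr 2
  refine Finset.prod_congr rfl fun i _ => ?_
  rw [(hi i).2, Nat.card_unique (α := Unit), ← pow_add]
  rfl

/-- The main theorem. -/
theorem mu_dom (hp : p.Prime) (F : IntermediateField ℚ QB) [FiniteDimensional ℚ F]
    {ι : Type} (H : Subgroup (Aut F)) (D : ι → Subgroup (Aut F)) (hdom : Dominated p H D)
    (h : ∀ i, MuZero p (fx F (D i))) : MuZero p (fx F H) := by
  classical
  intro S hS hpS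
  obtain ⟨R, hR, hR'⟩ := exists_ram F
  have hsub : S ⊆ S ∪ R := Finset.subset_union_left
  refine Set.Finite.subset ?_ (Homs_mono hsub _)
  have hS' : UnramifiedOutside (S ∪ R) F := by
    rintro σ ⟨P, hP, hq, hI⟩
    exact hR' σ ⟨P, hP, fun q hqR => hq q (Finset.mem_union_right _ hqR), hI⟩
  have : Finite (Subgroup (Aut F)) := inferInstanceAs (Finite (Subgroup (F ≃ₐ[ℚ] F)))
  have : Fintype {E : Subgroup (Aut F) // ∃ i, D i = E} := Fintype.ofFinite _
  refine (bounded hp F (Qinf p) (Qinf_normal p) H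
    (fun E : {E : Subgroup (Aut F) // ∃ i, D i = E} => E.1) ?_ (S ∪ R) hS' ?_).1
  · intro V _ _ b hb
    obtain ⟨i, hi⟩ := hdom V b hb
    exact ⟨⟨D i, i, rfl⟩, hi⟩
  · rintro ⟨_, i, rfl⟩
    apply h i
    · intro q hq
      rcases Finset.mem_union.1 hq with hq | hq
      · exact hS q hq
      · exact hR q hq
    · exact Finset.mem_union_left _ hpS

/-- The witness for the nonvanishing. -/
theorem mu_witness (hp : p.Prime) (F : IntermediateField ℚ QB) [FiniteDimensional ℚ F]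
    (H : Subgroup (Aut F)) : ¬ MuZero p (fx F H) ↔ HasQuotientWitness p F H := by
  constructor
  · intro h
    by_contra hcon
    apply h
    refine mu_dom hp F H (fun D : {D : Subgroup (Aut F) // MuZero p (fx F D)} => D.1) ?_
      fun D => D.2
    intro V i1 i2 b hb
    by_contra hno
    apply hcon
    refine ⟨V, i1, i2, b, hb, fun D hD hmu => hno ⟨⟨D, hmu⟩, hD⟩⟩
  · rintro ⟨V, i1, i2, b, ⟨_, v, hv, hvH, _⟩, h⟩
    exact h H ⟨v, hv, hvH⟩

theorem red (hp : p.Prime) (C : Set Fds) (hC : RealClosed C) (n : ℕ)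
    (h : ∀ M ∈ C, TightFor p C M → deg M ≤ n → MuZero p M)
    (F : IntermediateField ℚ QB) (hF : F ∈ C) (hn : deg F ≤ n) : MuZero p F := by
  obtain ⟨m, hm⟩ : ∃ m, deg F = m := ⟨_, rfl⟩
  induction m using Nat.strong_induction_on generalizing F with
  | _ m ih =>
    by_cases ht : TightFor p C F
    · exact h F hF ht hn
    unfold TightFor at ht
    push Not at ht
    obtain ⟨L, hL, H, hFL, hV⟩ := ht
    have hLf : FiniteDimensional ℚ L := (hC L hL).1.1
    have hLf' : FiniteDimensional ℚ (fx L H) := fx_fd L H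
    refine mu_mono hFL hp ?_
    refine mu_dom hp L H (fun D : {D : Subgroup (Aut L) // deg (fx L D) < deg F} => D.1) ?_
      fun D => ?_
    · intro V i1 i2 b hb
      obtain ⟨D, hD, hDf⟩ := hV V i1 i2 b hb
      exact ⟨⟨D, hD⟩, hDf⟩
    · have hlt : deg (fx L D.1) < m := D.2.trans_eq hm
      exact ih _ hlt (fx L D.1) ((hC L hL).2 _ (fx_le L D.1))
        ((hlt.le.trans hm.ge).trans hn) rfl

theorem restricted (hp : p.Prime) (C : Set Fds) (hC : RealClosed C)
    (M : IntermediateField ℚ QB) (hM : M ∈ C) (ht : TightFor p C M) : Restrictions p C M := by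
  refine Pool.Agent.H24UR.restricted hp C (fun F hF => ⟨(hC F hF).1.1, (hC F hF).2⟩) M hM ?_
  intro L hL hML
  have hbot : fx L (⊥ : Subgroup (Aut L)) = L := fx_bot L
  obtain ⟨V, i1, i2, b, ⟨hV, v, hv, hvH, hgen⟩, hfix⟩ := ht L hL ⊥ (by rw [hbot]; exact hML)
  -- an irreducible submodule
  by_contra hcon
  push Not at hcon
  have hdom : Pool.Agent.X310.Mu.Dominates p (⊥ : Subgroup (Aut L))
      (fun D : {D : Subgroup (Aut L) // deg (fx L D) < deg M} => D.1) := by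
    intro V' _ _ b' hV' hirr hv'
    obtain ⟨v', hv', _⟩ := hv'
    obtain ⟨D, hD, hDf⟩ := hcon V' inferInstance inferInstance b' ⟨hV', ⟨v', hv'⟩, hirr⟩
    exact ⟨⟨D, hD⟩, hDf⟩
  obtain ⟨D, w, hw, hwD⟩ := Pool.Agent.H24MU.dom_all hdom V b hV ⟨v, hv⟩
  exact hfix D.1 D.2 ⟨w, hw, hwD⟩

end Pool.Agent.H24GH.S
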