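import Mathlib
import Pool.Agent.H24GH.Alg

/-!
# The criterion is the best possible one for modules
-/

set_option autoImplicit false

namespace Pool.Agent.H24GH

open Pool.Agent.H24MU Pool.Agent.H24MU.St

theorem fin_add {p : ℕ} (hp : p.Prime) {Γ ι : Type} [Group Γ] [Finite Γ] {H : Subgroup Γ}
    {D : ι → Subgroup Γ} (hdom : Dominated p H D) {M : Type} [AddCommGroup M]
    (hM : ∀ x : M, p • x = 0) (a : Γ → M →+ M) (h1a : ∀ x, a 1 x = x)
    (hma : ∀ g h x, a (g * h) x = a g (a h x))
    (hfin : ∀ i, {v : M | ∀ d ∈ D i, a d v = v}.Finite) :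
    {v : M | ∀ h ∈ H, a h v = v}.Finite := by
  classical
  have : Fact p.Prime := ⟨hp⟩
  have : Fintype Γ := Fintype.ofFinite _
  have : Fintype {E : Subgroup Γ // ∃ i, D i = E} := Fintype.ofFinite _
  let : Module (ZMod p) M := AddCommGroup.zmodModule (n := p) hM
  let r : Γ →* Module.End (ZMod p) M :=
    { toFun := fun g => (a g).toZModLinearMap p
      map_one' := LinearMap.ext fun x => h1a x
      map_mul' := fun g h => LinearMap.ext fun x => hma g h x }
  have hr : ∀ g (x : M), r g x = a g x := fun g x => rfl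
  obtain ⟨h1, -⟩ := core (MonoidHom.id Γ) r (fun h hh => by
    rw [show h = 1 from hh, map_one]) H (fun E : {E : Subgroup Γ // ∃ i, D i = E} => E.1)
    (fun V _ _ b' hb' => by
      obtain ⟨i, hi⟩ := hdom V b' hb'
      exact ⟨⟨D i, i, rfl⟩, hi⟩) (by
    rintro ⟨_, i, rfl⟩ γ
    have : Finite {v : M | ∀ d ∈ D i, a d v = v} := hfin i
    refine Finite.of_injective (fun x : Fx (MonoidHom.id Γ) r (D i) γ =>
      (⟨a γ⁻¹ x.1, fun d hd => ?_⟩ : {v : M | ∀ d ∈ D i, a d v = v})) ?_
    · have h2 : γ⁻¹ * (MonoidHom.id Γ) (γ * d * γ⁻¹) * γ ∈ D i := by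
        have h3 : γ⁻¹ * (MonoidHom.id Γ) (γ * d * γ⁻¹) * γ = d := by
          rw [MonoidHom.id_apply]
          group
        rwa [h3]
      have h3 : a (γ * d * γ⁻¹) x.1 = x.1 := x.2 _ h2
      rw [← hma]
      have h4 := congrArg (a γ⁻¹) h3
      rw [← hma] at h4
      have h5 : γ⁻¹ * (γ * d * γ⁻¹) = d * γ⁻¹ := by group
      rwa [h5] at h4
    · intro x y hxy
      have h2 : a γ⁻¹ x.1 = a γ⁻¹ y.1 := congrArg Subtype.val hxy
      have h3 := congrArg (a γ) h2
      rw [← hma, ← hma, mul_inv_cancel, h1a, h1a] at h3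
      exact Subtype.ext h3)
  have h2 : {v : M | ∀ h ∈ H, a h v = v} =
      Set.range fun x : Fx (MonoidHom.id Γ) r H 1 => x.1 := by
    ext v
    constructor
    · intro hv
      refine ⟨⟨v, fun h hh => ?_⟩, rfl⟩
      rw [hr]
      refine hv h ?_
      have h3 : (1 : Γ)⁻¹ * h * 1 ∈ H := hh
      rwa [inv_one, one_mul, mul_one] at h3
    · rintro ⟨x, rfl⟩ h hh
      have h3 : (1 : Γ)⁻¹ * (MonoidHom.id Γ) h * 1 ∈ H := by
        rw [inv_one, one_mul, mul_one]
        exact hh
      exact x.2 h h3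
  rw [h2]
  exact Set.finite_range _

theorem fin_of_dom {p : ℕ} (hp : p.Prime) {Γ ι : Type} [Group Γ] [Finite Γ] {H : Subgroup Γ}
    {D : ι → Subgroup Γ} (hdom : Dominated p H D) (N : Type) [CommGroup N] (b : Γ →* MulAut N)
    (hN : ∀ v : N, v ^ p = 1) (hfin : ∀ i, {v : N | ∀ d ∈ D i, b d v = v}.Finite) :
    {v : N | ∀ h ∈ H, b h v = v}.Finite :=
  fin_add (M := Additive N) hp hdom (fun x => hN (Additive.toMul x))
    (fun g => MonoidHom.toAdditive (b g).toMonoidHom) (fun x => by
      have h1 : b 1 (Additive.toMul x) = Additive.toMul x := by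
        rw [map_one, MulAut.one_apply]
      exact h1) (fun g h x => by
      have h1 : b (g * h) (Additive.toMul x) = b g (b h (Additive.toMul x)) := by
        rw [map_mul, MulAut.mul_apply]
      exact h1) hfin

/-- **The criterion is necessary and sufficient.** -/
theorem sharp {p : ℕ} (hp : p.Prime) {Γ ι : Type} [Group Γ] [Finite Γ] (H : Subgroup Γ)
    (D : ι → Subgroup Γ) : Dominated p H D ↔ ∀ (N : Type) [CommGroup N] (b : Γ →* MulAut N),
      (∀ v : N, v ^ p = 1) → (∀ i, {v : N | ∀ d ∈ D i, b d v = v}.Finite) →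
        {v : N | ∀ h ∈ H, b h v = v}.Finite := by
  classical
  refine ⟨fun hdom N _ b hN hfin => fin_of_dom hp hdom N b hN hfin, fun h => ?_⟩
  rintro V _ _ b ⟨hV, v, hv, hvH, -⟩
  by_contra hcon
  push Not at hcon
  let c : Γ →* MulAut (ℕ → V) :=
    { toFun := fun g => MulEquiv.piCongrRight fun _ => b g
      map_one' := by
        refine MulEquiv.ext fun x => ?_
        funext n
        change b 1 (x n) = x n
        rw [map_one, MulAut.one_apply]
      map_mul' := fun g g' => by
        refine MulEquiv.ext fun x => ?_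
        funext n
        change b (g * g') (x n) = b g (b g' (x n))
        rw [map_mul, MulAut.mul_apply] }
  have hc : ∀ g x n, c g x n = b g (x n) := fun g x n => rfl
  have h1 := h (ℕ → V) c (fun x => funext fun n => hV (x n)) (fun i => by
    refine (Set.finite_singleton (1 : ℕ → V)).subset fun x hx => ?_
    funext n
    by_contra hne
    exact hcon i ⟨x n, hne, fun d hd => by rw [← hc, hx d hd]⟩)
  have h2 : Set.Infinite {x : ℕ → V | ∀ h ∈ H, c h x = x} := by
    refine Set.infinite_of_injective_forall_mem (f := fun k : ℕ => Pi.mulSingle k v) ?_ ?_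
    · intro k l hkl
      by_contra hne
      have h3 : (Pi.mulSingle k v : ℕ → V) k = (Pi.mulSingle l v : ℕ → V) k := congrFun hkl k
      rw [Pi.mulSingle_eq_same, Pi.mulSingle_eq_of_ne hne] at h3
      exact hv h3
    · intro k g hg
      funext n
      rw [hc]
      by_cases hn : n = k
      · subst hn
        rw [Pi.mulSingle_eq_same]
        exact hvH g hg
      · rw [Pi.mulSingle_eq_of_ne hn, map_one]
  exact h2 h1

end Pool.Agent.H24GH
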