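import Mathlib
import Pool.Agent.H24GH.Def
import Pool.Agent.H24UR.St

/-!
# Permutation modules and the `μ`-conjecture: definitions
-/

set_option autoImplicit false

namespace Pool.Agent.H24GH.U

open Pool.Agent.H24MU.St Pool.Agent.H24UR.St

/-- Some nontrivial quotient `V` of `𝔽_p[Aut F / H]` is such that the conjecture fails for all the fields
`F^D`, where `D` is a subgroup of `Aut F`, of any order, which has a nontrivial fixed vector in `V`. -/
def HasQuotientWitness (p : ℕ) (F : Fds) (H : Subgroup (Aut F)) : Prop :=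
  ∃ (V : Type) (_ : CommGroup V) (_ : Finite V) (b : Aut F →* MulAut V), IsQuotient p H b ∧
    ∀ D : Subgroup (Aut F), HasFixed b D → ¬ MuConj p (fx F D)

/-- If the number `t` of the primes of `F Z` over `R` and `p` is finite and the `h(F^{D i} Z)` are finite
then `h(F^H Z)` is finite and
`h(F^H Z) ≤ p ^ g (∏ i, p ^ (g ^ 2 + 2 t g + 1) h(F^{D i} Z)) ^ (g ^ 2)`, where `g = |Aut F|`. -/
def RankInequalityFor (p : ℕ) (R : Finset ℕ) (F Z : Fds) (H : Subgroup (Aut F)) {ι : Type}
    [Fintype ι] (D : ι → Subgroup (Aut F)) : Prop :=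
  (primesOver (insert p R) (F ⊔ Z)).Finite → (∀ i, (Homs p (fx F (D i) ⊔ Z)).Finite) →
    (Homs p (fx F H ⊔ Z)).Finite ∧ numHoms p (fx F H ⊔ Z) ≤ p ^ Nat.card (Aut F) *
      (∏ i, p ^ (Nat.card (Aut F) ^ 2 + 2 * (primesOver (insert p R) (F ⊔ Z)).ncard *
        Nat.card (Aut F) + 1) * numHoms p (fx F (D i) ⊔ Z)) ^ (Nat.card (Aut F) ^ 2)

/-- The field `M` is *tight* for `C`: for every field `L` in `C` and every subgroup `H` of `Aut L` with
`M ≤ L^H` there is a nontrivial quotient of the permutation module `𝔽_p[Aut L / H]` in which the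
subgroups `D` of `Aut L` with `[L^D : ℚ] < [M : ℚ]` have no nontrivial fixed vectors. -/
def TightFor (p : ℕ) (C : Set Fds) (M : Fds) : Prop :=
  ∀ L ∈ C, ∀ H : Subgroup (Aut L), M ≤ fx L H →
    ∃ (V : Type) (_ : CommGroup V) (_ : Finite V) (b : Aut L →* MulAut V), IsQuotient p H b ∧
      ∀ D : Subgroup (Aut L), deg (fx L D) < deg M → ¬ HasFixed b D

end Pool.Agent.H24GH.U
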