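import Mathlib
import Pool.Agent.H24GH.StU
import Pool.Agent.H24GH.Grp
import Pool.Agent.H24UR.Main

/-!
# The main theorems: the `μ`-conjecture
-/

set_option autoImplicit false

namespace Pool.Agent.H24GH.U

open IntermediateField Pool.Agent.H24MU.St Pool.Agent.H24UR.St
  Pool.Agent.H24UR
open Pool.Agent.H24MU (alg_QB exists_ram fx_le fx_fd fx_bot)

attribute [local instance] alg_QB

variable {p : ℕ}

/-- The inequality. -/
theorem bounded (hp : p.Prime) (F : IntermediateField ℚ QB) [FiniteDimensional ℚ F]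
    (Z : IntermediateField ℚ QB) (hZ : Z.fixingSubgroup.Normal) {ι : Type} [Fintype ι]
    (H : Subgroup (Aut F)) (D : ι → Subgroup (Aut F)) (hdom : Dominated p H D) (R : Finset ℕ)
    (hR : UnramifiedOutside R F) : RankInequalityFor p R F Z H D := by
  intro ht h
  have : Fact p.Prime := ⟨hp⟩
  have : Fintype (F ≃ₐ[ℚ] F) := Fintype.ofFinite _
  have hK : ∀ i, (frame p F Z hZ).K (D i) = (fx F (D i) ⊔ Z).fixingSubgroup := fun i =>
    frame_K p F Z hZ (D i)
  obtain ⟨e, he⟩ := exists_cls p F Z hZ R hR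
  have hft : Finite (primesOver (insert p R) (F ⊔ Z)) := ht
  have hi : ∀ i, Finite ((sys p).H p ((frame p F Z hZ).K (D i))) ∧
      Nat.card ((sys p).H p ((frame p F Z hZ).K (D i))) =
        numHoms p (fx F (D i) ⊔ Z) := fun i => by
    rw [hK, Homs_card]
    exact ⟨finite_H.1 (h i), rfl⟩
  obtain ⟨h1, h2⟩ := finite_of_dom p (frame p F Z hZ) H D hdom e he (fun i => (hi i).1)
  have hE : Nat.card (Option (Bool × primesOver (insert p R) (F ⊔ Z) × (F ≃ₐ[ℚ] F))) =
      2 * (primesOver (insert p R) (F ⊔ Z)).ncard * Nat.card (F ≃ₐ[ℚ] F) + 1 := by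
    rw [Finite.card_option, Nat.card_prod, Nat.card_prod, Nat.card_eq_fintype_card (α := Bool),
      Fintype.card_bool, ← mul_assoc]
    rfl
  have hH : (frame p F Z hZ).K H = (fx F H ⊔ Z).fixingSubgroup := frame_K p F Z hZ H
  rw [finite_H, Homs_card, ← hH]
  refine ⟨h1, h2.trans (le_of_eq ?_)⟩
  congr 2
  refine Finset.prod_congr rfl fun i _ => ?_
  rw [(hi i).2, hE, ← pow_add]
  rfl

/-- The main theorem. -/
theorem mu_dom (hp : p.Prime) (F : IntermediateField ℚ QB) [FiniteDimensional ℚ F]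
    {ι : Type} (H : Subgroup (Aut F)) (D : ι → Subgroup (Aut F)) (hdom : Dominated p H D)
    (h : ∀ i, MuConj p (fx F (D i))) : MuConj p (fx F H) := by
  classical
  obtain ⟨R, hR, hR'⟩ := exists_ram F
  have : Finite (Subgroup (Aut F)) := inferInstanceAs (Finite (Subgroup (F ≃ₐ[ℚ] F)))
  have : Fintype {E : Subgroup (Aut F) // ∃ i, D i = E} := Fintype.ofFinite _
  have hR2 : ∀ q ∈ insert p R, q.Prime := by
    intro q hq
    rcases Finset.mem_insert.1 hq with hq | hq
    · rw [hq]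
      exact hp
    · exact hR q hq
  refine (bounded hp F (Qcyc p) (Qcyc_normal p) H
    (fun E : {E : Subgroup (Aut F) // ∃ i, D i = E} => E.1) ?_ R hR'
    (finite_primesOver hp _ hR2 F) ?_).1
  · intro V _ _ b hb
    obtain ⟨i, hi⟩ := hdom V b hb
    exact ⟨⟨D i, i, rfl⟩, hi⟩
  · rintro ⟨_, i, rfl⟩
    exact h i

/-- The witness for the nonvanishing. -/
theorem mu_witness (hp : p.Prime) (F : IntermediateField ℚ QB) [FiniteDimensional ℚ F]
    (H : Subgroup (Aut F)) : ¬ MuConj p (fx F H) ↔ HasQuotientWitness p F H := by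
  constructor
  · intro h
    by_contra hcon
    apply h
    refine mu_dom hp F H (fun D : {D : Subgroup (Aut F) // MuConj p (fx F D)} => D.1) ?_
      fun D => D.2
    intro V i1 i2 b hb
    by_contra hno
    apply hcon
    refine ⟨V, i1, i2, b, hb, fun D hD hmu => hno ⟨⟨D, hmu⟩, hD⟩⟩
  · rintro ⟨V, i1, i2, b, ⟨_, v, hv, hvH, _⟩, h⟩
    exact h H ⟨v, hv, hvH⟩

theorem red (hp : p.Prime) (C : Set Fds) (hC : SubfieldClosed C) (n : ℕ)
    (h : ∀ M ∈ C, TightFor p C M → deg M ≤ n → MuConj p M)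
    (F : IntermediateField ℚ QB) (hF : F ∈ C) (hn : deg F ≤ n) : MuConj p F := by
  obtain ⟨m, hm⟩ : ∃ m, deg F = m := ⟨_, rfl⟩
  induction m using Nat.strong_induction_on generalizing F with
  | _ m ih =>
    by_cases ht : TightFor p C F
    · exact h F hF ht hn
    unfold TightFor at ht
    push Not at ht
    obtain ⟨L, hL, H, hFL, hV⟩ := ht
    have hLf : FiniteDimensional ℚ L := (hC L hL).1
    have hLf' : FiniteDimensional ℚ (fx L H) := fx_fd L H
    refine mu_mono hFL hp ?_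
    refine mu_dom hp L H (fun D : {D : Subgroup (Aut L) // deg (fx L D) < deg F} => D.1) ?_
      fun D => ?_
    · intro V i1 i2 b hb
      obtain ⟨D, hD, hDf⟩ := hV V i1 i2 b hb
      exact ⟨⟨D, hD⟩, hDf⟩
    · have hlt : deg (fx L D.1) < m := D.2.trans_eq hm
      exact ih _ hlt (fx L D.1) ((hC L hL).2 _ (fx_le L D.1))
        ((hlt.le.trans hm.ge).trans hn) rfl

theorem restricted (hp : p.Prime) (C : Set Fds) (hC : SubfieldClosed C)
    (M : IntermediateField ℚ QB) (hM : M ∈ C) (ht : TightFor p C M) : Restrictions p C M := by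
  refine Pool.Agent.H24UR.restricted hp C hC M hM ?_
  intro L hL hML
  have hbot : fx L (⊥ : Subgroup (Aut L)) = L := fx_bot L
  obtain ⟨V, i1, i2, b, ⟨hV, v, hv, hvH, hgen⟩, hfix⟩ := ht L hL ⊥ (by rw [hbot]; exact hML)
  -- an irreducible submodule
  by_contra hcon
  push Not at hcon
  have hdom : Pool.Agent.X310.Mu.Dominates p (⊥ : Subgroup (Aut L))
      (fun D : {D : Subgroup (Aut L) // deg (fx L D) < deg M} => D.1) := by
    intro V' _ _ b' hV' hirr hv'
    obtain ⟨v', hv', _⟩ := hv'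
    obtain ⟨D, hD, hDf⟩ := hcon V' inferInstance inferInstance b' ⟨hV', ⟨v', hv'⟩, hirr⟩
    exact ⟨⟨D, hD⟩, hDf⟩
  obtain ⟨D, w, hw, hwD⟩ := Pool.Agent.H24MU.dom_all hdom V b hV ⟨v, hv⟩
  exact hfix D.1 D.2 ⟨w, hw, hwD⟩

end Pool.Agent.H24GH.U
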